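import Pool.Agent.H332.HT.Defs

/-! Project HT (helper332), task SIX (helper390): the shadow is a parallelogram with a full corner and
a corner which is not full. -/

set_option autoImplicit false

namespace Pool.Agent.H390.HT

open Pool.Agent.H332.HT

theorem cramer (x c p : V2) : det p c • x + det x p • c = det x c • p := by
  unfold det
  ext
  · simp only [Prod.fst_add, Prod.smul_fst, smul_eq_mul]
    ring
  · simp only [Prod.snd_add, Prod.smul_snd, smul_eq_mul]
    ring

/-- a point with its coordinates -/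
theorem coord {x c : V2} (hD : 0 < det x c) (p : V2) :
    p = (det p c / det x c) • x + (det x p / det x c) • c := by
  calc p = (det x c)⁻¹ • (det x c • p) := by
        rw [smul_smul, inv_mul_cancel₀ hD.ne', one_smul]
    _ = (det x c)⁻¹ • (det p c • x + det x p • c) := by rw [cramer]
    _ = (det p c / det x c) • x + (det x p / det x c) • c := by
        rw [smul_add, smul_smul, smul_smul, div_eq_inv_mul, div_eq_inv_mul]

/-- the rectangle over the diagonal -/
theorem rect {K : Set V3} (hK : HB K) {x : V2} (hx : Full K x) (σ z : ℝ) (hσ : |σ| ≤ 1)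
    (hz : |z| ≤ 1) : ((σ • x, z) : V3) ∈ K := by
  rw [abs_le] at hσ hz
  have key : ∀ w : ℝ, ((x, w) : V3) ∈ K → ((σ • x, w) : V3) ∈ K := by
    intro w hw
    have h1 := hK.cvx hw (hK.symm x w hw) (show 0 ≤ (1 + σ) / 2 by linarith)
      (show 0 ≤ (1 - σ) / 2 by linarith) (by ring)
    have h2 : ((1 + σ) / 2) • ((x, w) : V3) + ((1 - σ) / 2) • ((-x, w) : V3) = (σ • x, w) := by
      ext
      · simp only [Prod.fst_add, Prod.smul_fst, smul_eq_mul, Prod.fst_neg]
        ring
      · simp only [Prod.fst_add, Prod.snd_add, Prod.smul_fst, Prod.smul_snd, smul_eq_mul,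
          Prod.snd_neg]
        ring
      · simp only [Prod.snd_add, Prod.smul_snd, smul_eq_mul]
        ring
    rwa [h2] at h1
  have h1 := hK.cvx (key 1 hx.1) (key (-1) hx.2) (show 0 ≤ (1 + z) / 2 by linarith)
      (show 0 ≤ (1 - z) / 2 by linarith) (by ring)
  have h2 : ((1 + z) / 2) • ((σ • x, (1 : ℝ)) : V3) + ((1 - z) / 2) • ((σ • x, (-1 : ℝ)) : V3) =
      (σ • x, z) := by
    ext
    · simp only [Prod.fst_add, Prod.smul_fst, smul_eq_mul]
      ring
    · simp only [Prod.fst_add, Prod.snd_add, Prod.smul_fst, Prod.smul_snd, smul_eq_mul]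
      ring
    · simp only [Prod.snd_add, Prod.smul_snd, smul_eq_mul]
      ring
  rwa [h2] at h1

/-- the box near a point of the parallelogram -/
theorem box {K : Set V3} (hK : HB K) {x : V2} (hx : Full K x) {b : V2} {z₀ ρ : ℝ}
    (hb : ((b, z₀) : V3) ∈ K) (hρ0 : 0 ≤ ρ) (hρ1 : ρ < 1) (s' z' : ℝ) (hs : |s'| ≤ 1 - ρ)
    (hz : |z'| ≤ 1 - ρ) : ((s' • x + ρ • b, ρ * z₀ + z') : V3) ∈ K := by
  have h0 : 0 < 1 - ρ := by linarith
  have h1 := rect hK hx (s' / (1 - ρ)) (z' / (1 - ρ))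
    (by rw [abs_div, abs_of_pos h0]; exact (div_le_one h0).2 hs)
    (by rw [abs_div, abs_of_pos h0]; exact (div_le_one h0).2 hz)
  have h2 := hK.cvx hb h1 hρ0 h0.le (by ring)
  have h3 : ρ • ((b, z₀) : V3) + (1 - ρ) • (((s' / (1 - ρ)) • x, z' / (1 - ρ)) : V3) =
      (s' • x + ρ • b, ρ * z₀ + z') := by
    ext
    · simp only [Prod.fst_add, Prod.smul_fst, smul_eq_mul]
      field_simp
      ring
    · simp only [Prod.fst_add, Prod.snd_add, Prod.smul_fst, Prod.smul_snd, smul_eq_mul]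
      field_simp
      ring
    · simp only [Prod.snd_add, Prod.smul_snd, smul_eq_mul]
      field_simp
  rwa [h3] at h2

/-- interior points of the shadow -/
theorem inI {K : Set V3} (hP : S_P) (hK : HB K) {x : V2} (hx : Full K x) {b : V2} {ρ : ℝ}
    (hb : b ∈ P K) (hρ0 : 0 ≤ ρ) (hρ1 : ρ < 1) (s' : ℝ) (hs : |s'| < 1 - ρ) :
    s' • x + ρ • b ∈ IP K := by
  obtain ⟨-, -, hPs, h0, hIs, -, hseg⟩ := hP K hK
  have hxP : x ∈ P K := ⟨(x, 1), hx.1, rfl⟩
  have h1 : 0 < 1 - ρ := by linarith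
  have key : ∀ σ : ℝ, 0 ≤ σ → σ < 1 → σ • x ∈ IP K := by
    intro σ h2 h3
    have h4 := hseg 0 h0 x hxP (1 - σ) (by linarith) (by linarith)
    rw [smul_zero, zero_add] at h4
    have h5 : 1 - (1 - σ) = σ := by ring
    rwa [h5] at h4
  have key2 : (s' / (1 - ρ)) • x ∈ IP K := by
    have h2 : |s' / (1 - ρ)| < 1 := by
      rw [abs_div, abs_of_pos h1]
      exact (div_lt_one h1).2 hs
    rcases le_total 0 (s' / (1 - ρ)) with h3 | h3
    · rw [abs_of_nonneg h3] at h2
      exact key _ h3 h2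
    · rw [abs_of_nonpos h3] at h2
      have h4 := hIs _ (key (-(s' / (1 - ρ))) (by linarith) h2)
      rwa [neg_smul, neg_neg] at h4
  have h2 := hseg _ key2 b hb (1 - ρ) h1 (by linarith)
  have h3 : (1 - ρ) • ((s' / (1 - ρ)) • x) + (1 - (1 - ρ)) • b = s' • x + ρ • b := by
    rw [smul_smul, mul_div_cancel₀ _ h1.ne']
    congr 2
    ring
  rwa [h3] at h2

/-- a point of the parallelogram is lit by one of four directions -/
theorem lit {K : Set V3} (hP : S_P) (hik : S_IntK) (hK : HB K) {x : V2} (hx : Full K x) {b : V2}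
    {z₀ ρ e s z : ℝ} (hb : ((b, z₀) : V3) ∈ K) (hρ0 : 0 ≤ ρ) (hρe : e ≤ 1 - ρ) (he : 0 < e)
    (he1 : e ≤ 1) (hs : |s| ≤ 1 - ρ) (hz : ((s • x + ρ • b, z) : V3) ∈ K) :
    ((x, 8 / e) : V3) ∈ C K (s • x + ρ • b, z) ∨ ((x, -(8 / e)) : V3) ∈ C K (s • x + ρ • b, z) ∨
    ((-x, 8 / e) : V3) ∈ C K (s • x + ρ • b, z) ∨
    ((-x, -(8 / e)) : V3) ∈ C K (s • x + ρ • b, z) := by
  have hρ1 : ρ < 1 := by linarith
  have hM : 0 < 8 / e := by positivity
  have hz0 := abs_le.1 (hK.ht _ _ hb)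
  have hz1 := abs_le.1 (hK.ht _ _ hz)
  have hbP : b ∈ P K := ⟨_, hb, rfl⟩
  obtain ⟨hs1, hs2⟩ := abs_le.1 hs
  have hh : |ρ * z₀| ≤ 1 := by
    rw [abs_mul, abs_of_nonneg hρ0]
    have h1 : |z₀| ≤ 1 := hK.ht _ _ hb
    have h2 := abs_nonneg z₀
    nlinarith
  obtain ⟨hh1, hh2⟩ := abs_le.1 hh
  -- interior points
  have hint : ∀ s' w : ℝ, |s'| < 1 - ρ → |w - ρ * z₀| < 1 - ρ →
      ((s' • x + ρ • b, w) : V3) ∈ interior K := by
    intro s' w h1 h2
    obtain ⟨h3, h4⟩ := abs_lt.1 h2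
    refine hik K hK _ (ρ * z₀ + (-(1 - ρ))) w (ρ * z₀ + (1 - ρ)) (inI hP hK hx hbP hρ0 hρ1 s' h1)
      (box hK hx hb hρ0 hρ1 s' _ h1.le ?_) (box hK hx hb hρ0 hρ1 s' _ h1.le ?_)
      (by linarith) (by linarith)
    · rw [abs_neg, abs_of_nonneg (by linarith)]
    · rw [abs_of_nonneg (by linarith)]
  -- the time
  have time : ∀ a : ℝ, 0 ≤ a → a ≤ 2 → 0 < (a + e / 2) / (8 / e) ∧ (a + e / 2) / (8 / e) < e := by
    intro a h1 h2
    refine ⟨by positivity, ?_⟩
    rw [div_lt_iff₀ hM]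
    have : e * (8 / e) = 8 := by field_simp
    rw [this]
    linarith
  have tM : ∀ a : ℝ, (a + e / 2) / (8 / e) * (8 / e) = a + e / 2 := fun a =>
    div_mul_cancel₀ _ hM.ne'
  rcases le_total s 0 with h1 | h1
  · rcases le_total (ρ * z₀) z with h2 | h2
    · right; left
      obtain ⟨ht0, ht1⟩ := time (z - ρ * z₀) (by linarith) (by linarith)
      refine ⟨_, ht0, ?_⟩
      have h3 : ((s • x + ρ • b, z) : V3) + ((z - ρ * z₀ + e / 2) / (8 / e)) •
          ((x, -(8 / e)) : V3) = ((s + (z - ρ * z₀ + e / 2) / (8 / e)) • x + ρ • b,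
            z - (z - ρ * z₀ + e / 2) / (8 / e) * (8 / e)) := by
        ext
        · simp only [Prod.fst_add, Prod.smul_fst, smul_eq_mul]
          ring
        · simp only [Prod.fst_add, Prod.snd_add, Prod.smul_fst, Prod.smul_snd, smul_eq_mul]
          ring
        · simp only [Prod.snd_add, Prod.smul_snd, smul_eq_mul]
          ring
      rw [h3, tM]
      apply hint
      · rw [abs_lt]
        constructor <;> linarith
      · rw [abs_lt]
        constructor <;> linarith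
    · left
      obtain ⟨ht0, ht1⟩ := time (ρ * z₀ - z) (by linarith) (by linarith)
      refine ⟨_, ht0, ?_⟩
      have h3 : ((s • x + ρ • b, z) : V3) + ((ρ * z₀ - z + e / 2) / (8 / e)) •
          ((x, 8 / e) : V3) = ((s + (ρ * z₀ - z + e / 2) / (8 / e)) • x + ρ • b,
            z + (ρ * z₀ - z + e / 2) / (8 / e) * (8 / e)) := by
        ext
        · simp only [Prod.fst_add, Prod.smul_fst, smul_eq_mul]
          ring
        · simp only [Prod.fst_add, Prod.snd_add, Prod.smul_fst, Prod.smul_snd, smul_eq_mul]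
          ring
        · simp only [Prod.snd_add, Prod.smul_snd, smul_eq_mul]
      rw [h3, tM]
      apply hint
      · rw [abs_lt]
        constructor <;> linarith
      · rw [abs_lt]
        constructor <;> linarith
  · rcases le_total (ρ * z₀) z with h2 | h2
    · right; right; right
      obtain ⟨ht0, ht1⟩ := time (z - ρ * z₀) (by linarith) (by linarith)
      refine ⟨_, ht0, ?_⟩
      have h3 : ((s • x + ρ • b, z) : V3) + ((z - ρ * z₀ + e / 2) / (8 / e)) •
          ((-x, -(8 / e)) : V3) = ((s - (z - ρ * z₀ + e / 2) / (8 / e)) • x + ρ • b,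
            z - (z - ρ * z₀ + e / 2) / (8 / e) * (8 / e)) := by
        ext
        · simp only [Prod.fst_add, Prod.smul_fst, smul_eq_mul, Prod.fst_neg]
          ring
        · simp only [Prod.fst_add, Prod.snd_add, Prod.smul_fst, Prod.smul_snd, smul_eq_mul,
            Prod.snd_neg]
          ring
        · simp only [Prod.snd_add, Prod.smul_snd, smul_eq_mul]
          ring
      rw [h3, tM]
      apply hint
      · rw [abs_lt]
        constructor <;> linarith
      · rw [abs_lt]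
        constructor <;> linarith
    · right; right; left
      obtain ⟨ht0, ht1⟩ := time (ρ * z₀ - z) (by linarith) (by linarith)
      refine ⟨_, ht0, ?_⟩
      have h3 : ((s • x + ρ • b, z) : V3) + ((ρ * z₀ - z + e / 2) / (8 / e)) •
          ((-x, 8 / e) : V3) = ((s - (ρ * z₀ - z + e / 2) / (8 / e)) • x + ρ • b,
            z + (ρ * z₀ - z + e / 2) / (8 / e) * (8 / e)) := by
        ext
        · simp only [Prod.fst_add, Prod.smul_fst, smul_eq_mul, Prod.fst_neg]
          ring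
        · simp only [Prod.fst_add, Prod.snd_add, Prod.smul_fst, Prod.smul_snd, smul_eq_mul,
            Prod.snd_neg]
          ring
        · simp only [Prod.snd_add, Prod.smul_snd, smul_eq_mul]
      rw [h3, tM]
      apply hint
      · rw [abs_lt]
        constructor <;> linarith
      · rw [abs_lt]
        constructor <;> linarith

/-- the middle of a fibre which is not full -/
theorem mid {K : Set V3} (hK : HB K) {c : V2} (hnf : ¬ Full K c) :
    ∃ m : ℝ, ∀ z : ℝ, ((c, z) : V3) ∈ K → |z - m| < 1 := by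
  have hcl : IsClosed {y : V3 | y.1 = c} := isClosed_eq continuous_fst continuous_const
  have hcp : IsCompact (K ∩ {y : V3 | y.1 = c}) := hK.cpt.inter_right hcl
  by_cases h1 : ((c, 1) : V3) ∈ K
  · have h2 : ((c, -1) : V3) ∉ K := fun h => hnf ⟨h1, h⟩
    obtain ⟨δ, hδ, hδ'⟩ := hcp.exists_forall_le' (f := fun y : V3 => 1 + y.2)
      (by fun_prop) (a := 0) (by
        rintro ⟨p, z⟩ ⟨hy, hp⟩
        have hp' : p = c := hp
        subst hp'
        have h3 := (abs_le.1 (hK.ht _ _ hy)).1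
        rcases eq_or_lt_of_le h3 with h4 | h4
        · exact (h2 (h4 ▸ hy)).elim
        · show 0 < 1 + z
          linarith)
    refine ⟨δ / 2, fun z hz => ?_⟩
    have h3 : δ ≤ 1 + z := hδ' (c, z) ⟨hz, rfl⟩
    have h4 := (abs_le.1 (hK.ht _ _ hz)).2
    rw [abs_lt]
    constructor <;> linarith
  · obtain ⟨δ, hδ, hδ'⟩ := hcp.exists_forall_le' (f := fun y : V3 => 1 - y.2)
      (by fun_prop) (a := 0) (by
        rintro ⟨p, z⟩ ⟨hy, hp⟩
        have hp' : p = c := hp
        subst hp'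
        have h3 := (abs_le.1 (hK.ht _ _ hy)).2
        rcases eq_or_lt_of_le h3 with h4 | h4
        · exact (h1 (h4 ▸ hy)).elim
        · show 0 < 1 - z
          linarith)
    refine ⟨-(δ / 2), fun z hz => ?_⟩
    have h3 : δ ≤ 1 - z := hδ' (c, z) ⟨hz, rfl⟩
    have h4 := (abs_le.1 (hK.ht _ _ hz)).1
    rw [abs_lt]
    constructor <;> linarith

theorem six (hP : S_P) (hf : S_fib) (hik : S_IntK) (hsym : S_sym) (hcop : S_Cop) : S_six := by
  intro K hK x c hx hxI hc hcI hD hpar hnf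
  obtain ⟨-, -, hPs, h0, hIs, -, hseg⟩ := hP K hK
  obtain ⟨⟨c₁, z₀⟩, hcz, hcc⟩ := hc
  have hcc' : c₁ = c := hcc
  subst hcc'
  obtain ⟨m, hm⟩ := mid hK hnf
  -- the direction for the fibre over `c`
  have hd3 : ∀ z : ℝ, ((c₁, z) : V3) ∈ K → ((-c₁, -m) : V3) ∈ C K (c₁, z) := by
    intro z hz
    refine ⟨1, one_pos, ?_⟩
    have h1 : ((c₁, z) : V3) + (1 : ℝ) • ((-c₁, -m) : V3) = (0, z - m) := by
      rw [one_smul, Prod.mk_add_mk, add_neg_cancel, sub_eq_add_neg]
    rw [h1]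
    have h2 := abs_lt.1 (hm z hz)
    exact hik K hK 0 (-1) (z - m) 1 h0 hK.S hK.N h2.1 h2.2
  -- the compact set of the other points
  have hop := hcop K
  have ho1 : IsOpen {y : V3 | ((-c₁, -m) : V3) ∈ C K y} :=
    hop.preimage (f := fun y : V3 => (y, ((-c₁, -m) : V3))) (by fun_prop)
  have ho2 : IsOpen {y : V3 | ((- -c₁, -m) : V3) ∈ C K y} :=
    hop.preimage (f := fun y : V3 => (y, ((- -c₁, -m) : V3))) (by fun_prop)
  have hY : IsCompact (K ∩ ({y : V3 | ((-c₁, -m) : V3) ∈ C K y}ᶜ ∩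
      {y : V3 | ((- -c₁, -m) : V3) ∈ C K y}ᶜ)) :=
    hK.cpt.inter_right (ho1.isClosed_compl.inter ho2.isClosed_compl)
  obtain ⟨e₀, he₀, hYe⟩ := hY.exists_forall_le' (f := fun y : V3 => 1 - |det x y.1| / det x c₁)
    (by
      unfold det
      fun_prop) (a := 0) (by
      rintro ⟨p, z⟩ ⟨hy, hy1, hy2⟩
      have hpP : p ∈ P K := ⟨_, hy, rfl⟩
      have h1 := hpar p hpP
      have h2 : |det x p| ≤ det x c₁ := by
        have := abs_nonneg (det p c₁)
        linarith
      rcases eq_or_lt_of_le h2 with h3 | h3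
      · exfalso
        have h4 : det p c₁ = 0 := by
          have h5 := abs_nonneg (det p c₁)
          exact abs_eq_zero.1 (by linarith)
        have h5 := coord hD p
        rw [h4, zero_div, zero_smul, zero_add] at h5
        rcases abs_eq hD.le |>.1 h3 with h6 | h6
        · rw [h6, div_self hD.ne', one_smul] at h5
          subst h5
          exact hy1 (hd3 z hy)
        · rw [h6, neg_div, div_self hD.ne', neg_smul, one_smul] at h5
          subst h5
          have h7 := hK.symm _ _ hy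
          rw [neg_neg] at h7
          exact hy2 (hsym K hK _ _ _ _ (hd3 z h7))
      · show 0 < 1 - |det x p| / det x c₁
        have h4 : |det x p| / det x c₁ < 1 := (div_lt_one hD).2 h3
        linarith)
  obtain ⟨e, he⟩ : ∃ e : ℝ, e = min e₀ 1 := ⟨_, rfl⟩
  have he0 : 0 < e := by
    rw [he]
    exact lt_min he₀ one_pos
  have he1 : e ≤ 1 := he ▸ min_le_right _ _
  have hee : e ≤ e₀ := he ▸ min_le_left _ _
  refine ⟨![(-c₁, -m), (- -c₁, -m), (x, 8 / e), (x, -(8 / e)), (-x, 8 / e), (-x, -(8 / e)), 0, 0],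
    ?_⟩
  rintro ⟨p, z⟩ hy -
  by_cases h1 : ((-c₁, -m) : V3) ∈ C K (p, z)
  · exact ⟨0, h1⟩
  by_cases h2 : ((- -c₁, -m) : V3) ∈ C K (p, z)
  · exact ⟨1, h2⟩
  have h3 : e₀ ≤ 1 - |det x p| / det x c₁ := hYe (p, z) ⟨hy, h1, h2⟩
  have hpP : p ∈ P K := ⟨_, hy, rfl⟩
  have h4 := hpar p hpP
  have h5 := coord hD p
  obtain ⟨s, hs⟩ : ∃ s : ℝ, s = det p c₁ / det x c₁ := ⟨_, rfl⟩
  obtain ⟨r, hr⟩ : ∃ r : ℝ, r = det x p / det x c₁ := ⟨_, rfl⟩
  have hr' : |det x p| / det x c₁ = |r| := by rw [hr, abs_div, abs_of_pos hD]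
  have hs' : |det p c₁| / det x c₁ = |s| := by rw [hs, abs_div, abs_of_pos hD]
  have h6 : |s| ≤ 1 - |r| := by
    rw [← hs', ← hr', le_sub_iff_add_le, ← add_div, div_le_one hD]
    exact h4
  rw [hr'] at h3
  rw [← hs, ← hr] at h5
  obtain ⟨b, hb, hrb⟩ : ∃ b : V2, ((b, z₀) : V3) ∈ K ∧ r • c₁ = |r| • b := by
    rcases le_total 0 r with h7 | h7
    · exact ⟨c₁, hcz, by rw [abs_of_nonneg h7]⟩
    · exact ⟨-c₁, hK.symm _ _ hcz, by rw [abs_of_nonpos h7, neg_smul_neg]⟩
  rw [hrb] at h5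
  subst h5
  rcases lit hP hik hK hx hb (abs_nonneg r) (by linarith) he0 he1 h6 hy with h | h | h | h
  · exact ⟨2, h⟩
  · exact ⟨3, h⟩
  · exact ⟨4, h⟩
  · exact ⟨5, h⟩

end Pool.Agent.H390.HT
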